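import Mathlib

set_option autoImplicit false

namespace Pool.Agent.H540Z.Lock

abbrev S4 := Equiv.Perm (Fin 4)

def inV (τ : S4) : Prop := τ * τ = 1 ∧ (τ = 1 ∨ ∀ i, τ i ≠ i)

instance : DecidablePred inV := fun τ => by unfold inV; infer_instance

end Pool.Agent.H540Z.Lock
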