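import Pool.Agent.H540Z.Lock.Dec0

set_option autoImplicit false

namespace Pool.Agent.H540Z.Lock

theorem d1 : ∀ a b : S4, inV a → inV b → inV (a * b) := by decide +kernel
theorem d2 : ∀ a : S4, inV a → inV a⁻¹ := by decide +kernel
theorem d3 : ∀ a : S4, inV a → ∀ g : S4, inV (g * a * g⁻¹) := by decide +kernel
theorem d4 : ∀ a b : S4, inV a → inV b → a * b = b * a := by decide +kernel
theorem d5 : ∀ a b : S4, inV (a ^ 3) → inV (b ^ 3) → inV ((a * b) ^ 3) := by decide +kernel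
theorem d6 : ∀ a : S4, inV (a ^ 3) → inV (a⁻¹ ^ 3) := by decide +kernel
theorem d7 : ∀ a : S4, inV (a ^ 3) → ∀ g : S4, inV ((g * a * g⁻¹) ^ 3) := by decide +kernel

end Pool.Agent.H540Z.Lock
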