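import Pool.Agent.H540Z.Lock.Dec0

set_option autoImplicit false

namespace Pool.Agent.H540Z.Lock

theorem d8 : ∀ a b : S4, inV ((a * b * a⁻¹ * b⁻¹) ^ 3) := by decide +kernel
theorem d9 : ∀ a b : S4, inV (a ^ 3) → inV (b ^ 3) → inV (a * b * a⁻¹ * b⁻¹) := by decide +kernel
theorem d10 : ∀ τ : S4, τ ≠ 1 → ∀ a b : Fin 4, a ≠ b → ∃ ρ : S4, (ρ * τ * ρ⁻¹)⁻¹ a = b := by
  decide +kernel
theorem d11 : ∀ x : S4, x ≠ 1 → x ^ 2 = 1 ∨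
    ∃ ρ : S4, x * (ρ * x * ρ⁻¹) ≠ 1 ∧ (x * (ρ * x * ρ⁻¹)) ^ 2 = 1 := by decide +kernel
theorem d12 : ∀ a : S4, inV (a ^ 3) → ¬ inV a → ∃ g : S4, ¬ inV ((g * a)⁻¹ * (a * g)) := by
  decide +kernel
theorem d13 : ∀ σ : S4, inV σ → σ ≠ 1 → ∀ a : S4,
    (∀ ρ : S4, ρ * a * ρ⁻¹ * σ = σ * (ρ * a * ρ⁻¹)) → inV a := by decide +kernel
theorem d14 : ∃ a : S4, inV (a ^ 3) ∧ ¬ inV a := by decide +kernel
theorem d15 : ∃ a : S4, inV a ∧ a ≠ 1 := by decide +kernel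

end Pool.Agent.H540Z.Lock
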