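import Pool.Agent.H540Z.Lock.Gen
import Pool.Agent.H540Z.Lock.DecA
import Pool.Agent.H540Z.Lock.DecB

set_option autoImplicit false

namespace Pool.Agent.H540Z.Lock

open Subgroup

def V4 : Subgroup S4 where
  carrier := {τ | inV τ}
  mul_mem' := fun ha hb => d1 _ _ ha hb
  one_mem' := ⟨by simp, Or.inl rfl⟩
  inv_mem' := fun ha => d2 _ ha

def A4 : Subgroup S4 where
  carrier := {τ | inV (τ ^ 3)}
  mul_mem' := fun ha hb => d5 _ _ ha hb
  one_mem' := ⟨by simp, Or.inl (by simp)⟩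
  inv_mem' := fun ha => d6 _ ha

instance : V4.Normal := ⟨d3⟩
instance : A4.Normal := ⟨d7⟩

instance solS4 : Group.IsSolvable S4 := by
  refine ⟨⟨3, ?_⟩⟩
  have h1 : derivedSeries S4 1 ≤ A4 := by
    rw [derivedSeries_succ, commutator_le]
    intro a _ b _
    exact d8 a b
  have h2 : derivedSeries S4 2 ≤ V4 := by
    rw [derivedSeries_succ, commutator_le]
    intro a ha b hb
    exact d9 a b (h1 ha) (h1 hb)
  rw [eq_bot_iff, derivedSeries_succ, commutator_le]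
  intro a ha b hb
  rw [mem_bot, commutatorElement_eq_one_iff_mul_comm]
  exact d4 a b (h2 ha) (h2 hb)

/-- the wreath product of the group of order 3 with the symmetric group -/
@[ext] structure DD where
  t : Fin 4 → ZMod 3
  τ : S4

instance : Mul DD := ⟨fun x y => ⟨fun i => x.t i + y.t (x.τ⁻¹ i), x.τ * y.τ⟩⟩
instance : One DD := ⟨⟨0, 1⟩⟩
instance : Inv DD := ⟨fun x => ⟨fun i => -x.t (x.τ i), x.τ⁻¹⟩⟩

@[simp] theorem DD.mul_t (x y : DD) (i : Fin 4) : (x * y).t i = x.t i + y.t (x.τ⁻¹ i) := rfl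
@[simp] theorem DD.mul_τ (x y : DD) : (x * y).τ = x.τ * y.τ := rfl
@[simp] theorem DD.one_t : (1 : DD).t = 0 := rfl
@[simp] theorem DD.one_τ : (1 : DD).τ = 1 := rfl
@[simp] theorem DD.inv_t (x : DD) (i : Fin 4) : (x⁻¹).t i = -x.t (x.τ i) := rfl
@[simp] theorem DD.inv_τ (x : DD) : (x⁻¹).τ = x.τ⁻¹ := rfl

instance : Group DD := Group.ofLeftAxioms
  (fun a b c => DD.ext (funext fun i => by simp [add_assoc]) (by simp [mul_assoc]))
  (fun a => DD.ext (funext fun i => by simp) (by simp))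
  (fun a => DD.ext (funext fun i => by simp) (by simp))

instance : Finite DD := Finite.of_injective (fun x : DD => (x.t, x.τ))
  (fun _ _ h => DD.ext (congrArg Prod.fst h) (congrArg Prod.snd h))

def sD : DD →* S4 := MonoidHom.mk' DD.τ (fun _ _ => rfl)

@[simp] theorem sD_apply (x : DD) : sD x = x.τ := rfl

theorem DD.comm {x y : DD} (hx : x.τ = 1) (hy : y.τ = 1) : x * y = y * x :=
  DD.ext (funext fun i => by simp [hx, hy, add_comm]) (by simp [hx, hy])

instance solD : Group.IsSolvable DD := by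
  have : Group.IsSolvable sD.ker :=
    Group.isSolvable_of_comm fun a b => Subtype.ext (DD.comm a.2 b.2)
  exact Group.isSolvable_of_ker_le_range sD.ker.subtype sD (by simp)

def om (a : ZMod 3) : ZMod 7 := 2 ^ a.val

theorem om_add : ∀ a b : ZMod 3, om (a + b) = om a * om b := by decide
@[simp] theorem om_zero : om 0 = 1 := by decide
theorem om_eq_one : ∀ a : ZMod 3, om a = 1 → a = 0 := by decide
theorem om_one : ∀ x : ZMod 7, x = om 1 * x → x = 0 := by decide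

/-- the wreath product of the Frobenius group of order 21 with the symmetric group -/
@[ext] structure HH where
  v : Fin 4 → ZMod 7
  d : DD

instance : Mul HH := ⟨fun x y => ⟨fun i => x.v i + om (x.d.t i) * y.v (x.d.τ⁻¹ i), x.d * y.d⟩⟩
instance : One HH := ⟨⟨0, 1⟩⟩
instance : Inv HH := ⟨fun x => ⟨fun i => -(om (-x.d.t (x.d.τ i)) * x.v (x.d.τ i)), x.d⁻¹⟩⟩

@[simp] theorem HH.mul_v (x y : HH) (i : Fin 4) :
    (x * y).v i = x.v i + om (x.d.t i) * y.v (x.d.τ⁻¹ i) := rfl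
@[simp] theorem HH.mul_d (x y : HH) : (x * y).d = x.d * y.d := rfl
@[simp] theorem HH.one_v : (1 : HH).v = 0 := rfl
@[simp] theorem HH.one_d : (1 : HH).d = 1 := rfl
@[simp] theorem HH.inv_v (x : HH) (i : Fin 4) :
    (x⁻¹).v i = -(om (-x.d.t (x.d.τ i)) * x.v (x.d.τ i)) := rfl
@[simp] theorem HH.inv_d (x : HH) : (x⁻¹).d = x.d⁻¹ := rfl

instance : Group HH := Group.ofLeftAxioms
  (fun a b c => HH.ext (funext fun i => by simp [om_add]; ring) (by simp [mul_assoc]))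
  (fun a => HH.ext (funext fun i => by simp) (by simp))
  (fun a => HH.ext (funext fun i => by simp) (by simp))

instance : Finite HH := Finite.of_injective (fun x : HH => (x.v, x.d))
  (fun _ _ h => HH.ext (congrArg Prod.fst h) (congrArg Prod.snd h))

def qH : HH →* DD := MonoidHom.mk' HH.d (fun _ _ => rfl)

@[simp] theorem qH_apply (x : HH) : qH x = x.d := rfl

theorem HH.comm {x y : HH} (hx : x.d = 1) (hy : y.d = 1) : x * y = y * x :=
  HH.ext (funext fun i => by simp [hx, hy, add_comm]) (by simp [hx, hy])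

instance solH : Group.IsSolvable HH := by
  have : Group.IsSolvable qH.ker :=
    Group.isSolvable_of_comm fun a b => Subtype.ext (HH.comm a.2 b.2)
  exact Group.isSolvable_of_ker_le_range qH.ker.subtype qH (by simp)

theorem HH.pow_v {x : HH} (hx : x.d = 1) (n : ℕ) : x ^ n = ⟨fun i => n * x.v i, 1⟩ := by
  induction n with
  | zero => exact HH.ext (funext fun i => by simp) (by simp)
  | succ n ih =>
    rw [pow_succ, ih]
    exact HH.ext (funext fun i => by simp; ring) (by simp [hx])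

theorem HH.pow7 {x : HH} (hx : x.d = 1) : x ^ 7 = 1 := by
  rw [HH.pow_v hx]
  refine HH.ext (funext fun i => ?_) rfl
  have : ((7 : ℕ) : ZMod 7) = 0 := by decide
  simp only [this, zero_mul, HH.one_v, Pi.zero_apply]

theorem HH.cent {x : HH} (h : ∀ v : Fin 4 → ZMod 7, x * ⟨v, 1⟩ = ⟨v, 1⟩ * x) : x.d = 1 := by
  have key : ∀ i, x.d.τ⁻¹ i = i ∧ x.d.t i = 0 := by
    intro i
    have h1 := congrArg (fun y : HH => y.v i) (h (Pi.single i 1))
    simp only [HH.mul_v, DD.one_t, Pi.zero_apply, om_zero, DD.one_τ, inv_one, Equiv.Perm.coe_one,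
      id_eq, one_mul, Pi.single_eq_same] at h1
    have h2 : om (x.d.t i) * (Pi.single i (1 : ZMod 7) : Fin 4 → ZMod 7) (x.d.τ⁻¹ i) = 1 := by
      linear_combination h1
    by_cases h3 : x.d.τ⁻¹ i = i
    · rw [h3, Pi.single_eq_same, mul_one] at h2
      exact ⟨h3, om_eq_one _ h2⟩
    · rw [Pi.single_eq_of_ne h3, mul_zero] at h2
      exact absurd h2 (by decide)
  refine DD.ext (funext fun i => (key i).2) ?_
  rw [DD.one_τ, ← inv_eq_one]
  exact Equiv.ext fun i => (key i).1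

theorem comm_of {G : Type} [Group G] {x y : G} (h : x * (y * x⁻¹ * y⁻¹) = 1) : x * y = y * x := by
  calc x * y = x * (y * x⁻¹ * y⁻¹) * (y * x) := by group
    _ = y * x := by rw [h, one_mul]

theorem ZC_HH : ZC 7 HH := by
  refine ⟨inferInstance, inferInstance, fun P hP hp hne => ?_⟩
  exfalso
  apply hne
  rw [eq_bot_iff]
  intro x hx
  refine hp x hx (HH.pow7 (HH.cent fun v => comm_of (hp _ ?_ (HH.pow7 ?_))))
  · exact P.mul_mem hx (hP.conj_mem _ (P.inv_mem hx) _)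
  · simp

/-- fibre product with the symmetric group over the quotient by the four-group -/
def Fib {H : Type} [Group H] (φ : H →* S4) : Subgroup (S4 × H) where
  carrier := {p | p.1 * (φ p.2)⁻¹ ∈ V4}
  mul_mem' := by
    rintro ⟨a, c⟩ ⟨b, d⟩ h1 h2
    have := V4.mul_mem ((inferInstance : V4.Normal).conj_mem _ h2 a) h1
    show a * b * (φ (c * d))⁻¹ ∈ V4
    convert this using 1
    rw [map_mul]; group
  one_mem' := by
    show (1 : S4) * (φ 1)⁻¹ ∈ V4
    simp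
  inv_mem' := by
    rintro ⟨a, c⟩ h
    have := (inferInstance : V4.Normal).conj_mem _ (V4.inv_mem h) a⁻¹
    show a⁻¹ * (φ c⁻¹)⁻¹ ∈ V4
    convert this using 1
    rw [map_inv]; group

theorem mem_Fib {H : Type} [Group H] {φ : H →* S4} {p : S4 × H} :
    p ∈ Fib φ ↔ p.1 * (φ p.2)⁻¹ ∈ V4 := Iff.rfl

theorem diag_mem {H : Type} [Group H] (φ : H →* S4) (h : H) : (φ h, h) ∈ Fib φ := by
  rw [mem_Fib]; simp

abbrev H1 : Type := ↥(Fib sD)
abbrev GG : Type := ↥(Fib (sD.comp qH))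

def f2 : GG →* HH := (MonoidHom.snd _ _).comp (Fib _).subtype
def f1 : GG →* H1 := MonoidHom.mk' (fun x => ⟨(x.1.1, x.1.2.d), x.2⟩) (fun _ _ => rfl)

theorem f2_surj : Function.Surjective f2 := fun h => ⟨⟨_, diag_mem _ h⟩, rfl⟩
theorem f1_surj : Function.Surjective f1 := fun x => ⟨⟨(x.1.1, ⟨0, x.1.2⟩), x.2⟩, rfl⟩

theorem ker_inf : f1.ker ⊓ f2.ker = ⊥ := by
  rw [eq_bot_iff]
  rintro ⟨⟨σ, h⟩, hx⟩ ⟨h1, h2⟩
  have h3 : σ = 1 := congrArg (fun y : H1 => y.1.1) h1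
  have h4 : h = 1 := h2
  subst h3 h4
  rfl

abbrev XX : Cls := FP (ZC 7) (ZC 2)

theorem fit7 : Fit (ZC 7) := fit_ZC (by norm_num)
theorem fit2 : Fit (ZC 2) := fit_ZC (by norm_num)
theorem fitX : Fit XX := fit7.fp fit2

theorem X_HH : XX HH := by
  unfold XX
  rw [FP_iff fit2 inferInstance (1 : HH →* PUnit)]
  · exact fit2.triv _
  · rw [MonoidHom.ker_one]
    exact le_antisymm (le_rad inferInstance (fit7.top.2 ZC_HH)) le_top

theorem ZC_S4 : ZC 2 S4 := by
  refine ⟨inferInstance, inferInstance, fun P hP hp hne => ?_⟩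
  exfalso
  apply hne
  rw [eq_bot_iff]
  intro x hx
  by_contra h
  rcases d11 x h with h1 | ⟨ρ, h1, h2⟩
  · exact h (hp x hx h1)
  · exact h1 (hp _ (P.mul_mem hx (hP.conj_mem x hx ρ)) h2)

def g1 : H1 →* S4 := sD.comp ((MonoidHom.snd _ _).comp (Fib _).subtype)

/-- the sum-zero part of the base group -/
def T0 : Subgroup H1 where
  carrier := {x | x.1.1 = 1 ∧ x.1.2.τ = 1 ∧ ∑ i, x.1.2.t i = 0}
  mul_mem' := by
    rintro ⟨⟨a, c⟩, hx⟩ ⟨⟨b, d⟩, hy⟩ ⟨h1, h2, h3⟩ ⟨h4, h5, h6⟩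
    simp only at h1 h2 h3 h4 h5 h6
    refine ⟨by simp [h1, h4], by simp [h2, h5], ?_⟩
    simp [h2, Finset.sum_add_distrib, h3, h6]
  one_mem' := ⟨rfl, rfl, by simp⟩
  inv_mem' := by
    rintro ⟨⟨a, c⟩, hx⟩ ⟨h1, h2, h3⟩
    simp only at h1 h2 h3
    refine ⟨by simp [h1], by simp [h2], ?_⟩
    simp [h2, h3]

instance : T0.Normal := ⟨by
  rintro ⟨⟨a, c⟩, hx⟩ ⟨h1, h2, h3⟩ ⟨⟨b, d⟩, hy⟩
  simp only at h1 h2 h3
  refine ⟨by simp [h1], by simp [h2], ?_⟩
  have := Equiv.sum_comp d.τ⁻¹ c.t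
  simp [h2]
  rw [← h3, ← this]; rfl⟩

theorem DD.cube {x : DD} (hx : x.τ = 1) : x ^ 3 = 1 := by
  refine DD.ext (funext fun i => ?_) (by simp [pow_succ, hx])
  have : ∀ a : ZMod 3, a + a + a = 0 := by decide
  simp [pow_succ, hx, this]

theorem ker_g1 : g1.ker = rad (ZC 7) H1 := by
  have hle : g1.ker ≤ rad (ZC 7) H1 := by
    refine le_rad inferInstance (ZC.of_sub inferInstance fun P hP _ _ hne => ?_)
    obtain ⟨z, hz, hz1⟩ := (bot_or_exists_ne_one P).resolve_left hne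
    refine ⟨z, hz, hz1, fun g hg => ?_⟩
    have h1 : z.1.2.τ = 1 := hP hz
    have h2 : g.1.2.τ = 1 := hg
    have h3 := mem_Fib.1 z.2
    have h4 := mem_Fib.1 g.2
    rw [sD_apply, h1, inv_one, mul_one] at h3
    rw [sD_apply, h2, inv_one, mul_one] at h4
    exact Subtype.ext (Prod.ext (d4 _ _ h4 h3) (DD.comm h2 h1))
  refine le_antisymm hle ?_
  obtain ⟨r1, r2⟩ := rad_spec fit7 H1 inferInstance
  obtain ⟨z, ⟨h1, h2, h3⟩, hz1, hzc⟩ := r2.sub (P := T0) (fun x hx => hle hx.2.1) inferInstance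
    (by
      intro x hx h7
      have h3 : x ^ 3 = 1 := Subtype.ext (Prod.ext (by simp [hx.1]) (DD.cube hx.2.1))
      calc x = (x ^ 3) ^ 2 * x := by rw [h3]; simp
        _ = x ^ 7 := by group
        _ = 1 := h7)
    (by
      intro h
      have h1 : (⟨(1, ⟨![1, 2, 0, 0], 1⟩), by rw [mem_Fib]; simp⟩ : H1) ∈ T0 :=
        ⟨rfl, rfl, by decide⟩
      rw [h, mem_bot] at h1
      have h2 := congrArg (fun y : H1 => y.1.2.t 0) h1
      exact absurd h2 (by decide))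
  intro k hk
  by_contra hk1
  have hτ : k.1.2.τ ≠ 1 := hk1
  have hconst : ∀ a b : Fin 4, z.1.2.t a = z.1.2.t b := by
    intro a b
    by_cases hab : a = b
    · rw [hab]
    obtain ⟨ρ, hρ⟩ := d10 _ hτ a b hab
    let g : H1 := ⟨_, diag_mem sD ⟨0, ρ⟩⟩
    have h4 := congrArg (fun y : H1 => y.1.2.t a) (hzc _ (r1.conj_mem k hk g))
    have h5 : (g * k * g⁻¹).1.2.τ = ρ * k.1.2.τ * ρ⁻¹ := rfl
    simp only [coe_mul, Prod.snd_mul] at h4 h5
    rw [DD.mul_t, DD.mul_t z.1.2, h2, h5, hρ] at h4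
    simp only [inv_one, Equiv.Perm.coe_one, id_eq] at h4
    linear_combination -h4
  apply hz1
  have h6 : z.1.2.t 0 = 0 := by
    rw [Fin.sum_univ_four, hconst 1 0, hconst 2 0, hconst 3 0] at h3
    have : ∀ a : ZMod 3, a + a + a + a = 0 → a = 0 := by decide
    exact this _ h3
  exact Subtype.ext (Prod.ext h1 (DD.ext (funext fun i => (hconst i 0).trans h6) h2))

theorem X_H1 : XX H1 := by
  unfold XX
  rw [FP_iff fit2 inferInstance g1 ker_g1, MonoidHom.range_eq_top.2, fit2.top]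
  · exact ZC_S4
  · intro τ
    exact ⟨⟨_, diag_mem sD ⟨0, τ⟩⟩, rfl⟩

def g2 : GG →* S4 ⧸ V4 := (QuotientGroup.mk' V4).comp (g1.comp f1)

theorem mem_ker_g2 {x : GG} : x ∈ g2.ker ↔ x.1.2.d.τ ∈ V4 :=
  QuotientGroup.eq_one_iff _

theorem fst_mem {x : GG} : x.1.1 ∈ V4 ↔ x.1.2.d.τ ∈ V4 := by
  have h : x.1.1 * (x.1.2.d.τ)⁻¹ ∈ V4 := x.2
  constructor
  · intro h1
    have := V4.mul_mem (V4.inv_mem h) h1
    simpa using this
  · intro h1
    have := V4.mul_mem h h1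
    simpa using this

theorem ker_g2 : g2.ker = rad (ZC 7) GG := by
  have hle : g2.ker ≤ rad (ZC 7) GG := by
    refine le_rad inferInstance (ZC.of_sub inferInstance fun P hP hn hp hne => ?_)
    obtain ⟨z, hz, hz1⟩ := (bot_or_exists_ne_one P).resolve_left hne
    have hm : ∀ y : HH, y.d.τ = 1 → ((1 : S4), y) ∈ Fib (sD.comp qH) := by
      intro y hy
      rw [mem_Fib]
      simp [hy]
    have hc : ∀ (y : HH) (hy : y.d.τ = 1), z.1.2.d * y.d = y.d * z.1.2.d →
        z.1.2 * y = y * z.1.2 := by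
      intro y hy hd
      have h1 : z * (⟨_, hm y hy⟩ * z⁻¹ * (⟨_, hm y hy⟩ : GG)⁻¹) ∈ P :=
        P.mul_mem hz (hn _ (mem_ker_g2.2 (by simp [hy])) _ (P.inv_mem hz))
      have h2 := hp _ h1 (Subtype.ext (Prod.ext (by simp) (HH.pow7 (by
        show z.1.2.d * (y.d * (z.1.2.d)⁻¹ * (y.d)⁻¹) = 1
        rw [← mul_assoc, ← mul_assoc, hd]; group))))
      exact congrArg (fun w : GG => w.1.2) (comm_of h2)
    have h1 : z.1.2.d = 1 := HH.cent fun v => hc _ rfl (by simp)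
    have h2 : z.1.2 = 1 := by
      refine HH.ext (funext fun i => om_one _ ?_) h1
      have := congrArg (fun w : HH => w.v i) (hc ⟨0, ⟨fun _ => 1, 1⟩⟩ rfl (by simp [h1]))
      simpa using this
    refine ⟨z, hz, hz1, fun g hg => Subtype.ext (Prod.ext ?_ (by simp [h2]))⟩
    exact d4 _ _ (fst_mem.2 (mem_ker_g2.1 hg)) (fst_mem.2 (mem_ker_g2.1 (hP hz)))
  refine le_antisymm hle ?_
  obtain ⟨r1, r2⟩ := rad_spec fit7 GG inferInstance
  have hk2 : ∀ x ∈ f2.ker, x.1.2.d.τ ∈ V4 := by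
    intro x hx
    have : x.1.2 = 1 := hx
    rw [this]; exact V4.one_mem
  obtain ⟨z, hz, hz1, hzc⟩ := r2.sub (P := f2.ker) (fun x hx => hle (mem_ker_g2.2 (hk2 x hx)))
    inferInstance
    (by
      intro x hx h7
      have h1 : x.1.2 = 1 := hx
      have h2 : x * x = 1 := Subtype.ext (Prod.ext (fst_mem.2 (hk2 x hx)).1 (by simp [h1]))
      calc x = (x * x) ^ 3 * x := by rw [h2]; simp
        _ = x ^ 7 := by rw [← sq]; group
        _ = 1 := h7)
    (by
      intro h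
      obtain ⟨a, ha, ha1⟩ := d15
      have h1 : (⟨(a, 1), by rw [mem_Fib]; simpa using (show a ∈ V4 from ha)⟩ : GG) ∈ f2.ker := rfl
      rw [h, mem_bot] at h1
      exact ha1 (congrArg (fun y : GG => y.1.1) h1))
  intro k hk
  rw [mem_ker_g2, ← fst_mem]
  refine d13 z.1.1 (fst_mem.2 (hk2 z hz)) (fun h => hz1 (Subtype.ext (Prod.ext h hz))) _ fun ρ => ?_
  let g : GG := ⟨_, diag_mem (sD.comp qH) ⟨0, ⟨0, ρ⟩⟩⟩
  exact congrArg (fun y : GG => y.1.1) (hzc _ (r1.conj_mem k hk g))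

theorem not_X_GG : ¬ XX GG := by
  unfold XX
  have hs : Function.Surjective g2 := by
    intro q
    obtain ⟨τ, rfl⟩ := QuotientGroup.mk'_surjective V4 q
    exact ⟨⟨_, diag_mem (sD.comp qH) ⟨0, ⟨0, τ⟩⟩⟩, rfl⟩
  rw [FP_iff fit2 inferInstance g2 ker_g2, MonoidHom.range_eq_top.2 hs, fit2.top]
  intro h
  obtain ⟨z, ⟨a, ha, rfl⟩, hz1, hzc⟩ := h.2.2 (A4.map (QuotientGroup.mk' V4))
    ((inferInstance : A4.Normal).map _ (QuotientGroup.mk'_surjective V4))
    (by
      rintro _ ⟨a, ha, rfl⟩ h2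
      have h3 : (QuotientGroup.mk' V4 a) ^ 3 = 1 := by
        rw [← map_pow]; exact (QuotientGroup.eq_one_iff _).2 ha
      rw [pow_succ, h2, one_mul] at h3
      exact h3)
    (by
      intro h0
      obtain ⟨a, ha, ha1⟩ := d14
      have : QuotientGroup.mk' V4 a ∈ A4.map (QuotientGroup.mk' V4) := ⟨a, ha, rfl⟩
      rw [h0, mem_bot] at this
      exact ha1 ((QuotientGroup.eq_one_iff _).1 this))
  obtain ⟨g, hg⟩ := d12 a ha (fun h => hz1 ((QuotientGroup.eq_one_iff _).2 h))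
  exact hg (QuotientGroup.eq.1 (hzc (QuotientGroup.mk' V4 g)))

end Pool.Agent.H540Z.Lock
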