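import Pool.Agent.H540Z.Lock.Ex

set_option autoImplicit false

namespace Pool.Agent.H540Z.Lock

open Subgroup
open scoped commutatorElement

/-- the largest normal `r'`-subgroup is hypercentral -/
def HC (r : ℕ) : Cls := fun G _ => Finite G ∧ Group.IsSolvable G ∧
  ∀ P : Subgroup G, P.Normal → Rp r P → P ≤ ⁅P, ⊤⁆ → P = ⊥

theorem Rp.map_inj {r : ℕ} {G H : Type} [Group G] [Group H] {P : Subgroup G} (hp : Rp r P)
    {f : G →* H} (hf : Function.Injective f) : Rp r (P.map f) := by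
  rintro _ ⟨x, hx, rfl⟩ h
  rw [hp x hx (hf (by rw [map_pow, map_one]; exact h)), map_one]

theorem Rp.subgroupOf {r : ℕ} {G : Type} [Group G] {P : Subgroup G} (hp : Rp r P)
    (K : Subgroup G) : Rp r (P.subgroupOf K) :=
  fun x hx h => Subtype.ext (hp x hx (congrArg Subtype.val h))

theorem normal_subgroupOf_of {G : Type} [Group G] {K P : Subgroup G}
    (hn : ∀ g ∈ K, ∀ x ∈ P, g * x * g⁻¹ ∈ P) : (P.subgroupOf K).Normal :=
  ⟨fun x hx g => hn g g.2 x hx⟩

theorem HC.sub {r : ℕ} {G : Type} [Group G] {K : Subgroup G} (hK : HC r ↥K) {P : Subgroup G}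
    (hle : P ≤ K) (hn : (P.subgroupOf K).Normal) (hr : Rp r P) (h : P ≤ ⁅P, K⁆) : P = ⊥ := by
  have e : (P.subgroupOf K).map K.subtype = P := map_subgroupOf_eq_of_le hle
  have := hK.2.2 (P.subgroupOf K) hn (hr.subgroupOf K) (by
    rw [← map_le_map_iff_of_injective K.subtype_injective, map_commutator, e,
      ← MonoidHom.range_eq_map, range_subtype]
    exact h)
  rw [← e, this, Subgroup.map_bot]

theorem HC.of_sub {r : ℕ} {G : Type} [Group G] [Finite G] (hs : Group.IsSolvable G)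
    {K : Subgroup G}
    (h : ∀ P : Subgroup G, P ≤ K → (∀ g ∈ K, ∀ x ∈ P, g * x * g⁻¹ ∈ P) → Rp r P → P ≤ ⁅P, K⁆ →
      P = ⊥) : HC r ↥K := by
  refine ⟨inferInstance, inferInstance, fun P hP hr hle => ?_⟩
  have := h (P.map K.subtype) (map_subtype_le P)
    (by
      rintro g hg _ ⟨x, hx, rfl⟩
      exact ⟨_, hP.conj_mem x hx ⟨g, hg⟩, rfl⟩)
    (hr.map_inj K.subtype_injective)
    (by
      have := map_mono (f := K.subtype) hle
      rwa [map_commutator, ← MonoidHom.range_eq_map, range_subtype] at this)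
  exact (map_eq_bot_iff_of_injective P K.subtype_injective).1 this

theorem HC.of_central {r : ℕ} {G : Type} [Group G] [Finite G] (hs : Group.IsSolvable G)
    {K : Subgroup G}
    (h : ∀ P : Subgroup G, P ≤ K → (∀ g ∈ K, ∀ x ∈ P, g * x * g⁻¹ ∈ P) → Rp r P →
      ∀ z ∈ P, ∀ g ∈ K, g * z = z * g) : HC r ↥K := by
  refine HC.of_sub hs fun P h1 h2 h3 h4 => ?_
  rw [eq_bot_iff]
  refine h4.trans (commutator_le.2 fun z hz g hg => ?_)
  rw [mem_bot, commutatorElement_eq_one_iff_mul_comm]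
  exact (h P h1 h2 h3 z hz g hg).symm

theorem HC.hyp {r : ℕ} {H : Type} [Group H] (hH : HC r H) {W P : Subgroup H} (hW : W.Normal)
    (hr : Rp r W) (hle : P ≤ W) (h : P ≤ ⁅P, ⊤⁆) : P = ⊥ := by
  have := hH.1
  have hfin : {U : Subgroup H | U.Normal ∧ P ≤ U ∧ U ≤ W}.Finite := Set.toFinite _
  obtain ⟨U, hU⟩ := hfin.exists_minimal ⟨W, hW, hle, le_rfl⟩
  obtain ⟨u1, u2, u3⟩ := hU.1
  have h1 : ⁅U, (⊤ : Subgroup H)⁆ ≤ U := commutator_le_left _ _
  have h2 : U ≤ ⁅U, ⊤⁆ :=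
    hU.2 ⟨inferInstance, h.trans (commutator_mono u2 le_rfl), h1.trans u3⟩ h1
  rw [eq_bot_iff, ← hH.2.2 U u1 (hr.mono u3) h2]
  exact u2

theorem exists_O {r : ℕ} (hr : r.Prime) (K : Type) [Group K] [Finite K] :
    ∃ W : Subgroup K, W.Characteristic ∧ Rp r W ∧ ∀ U : Subgroup K, U.Normal → Rp r U → U ≤ W := by
  have hfin : {U : Subgroup K | U.Normal ∧ Rp r U}.Finite := Set.toFinite _
  obtain ⟨W, hW⟩ := hfin.exists_maximal ⟨⊥, inferInstance, fun x hx _ => hx⟩
  have h1 := hW.1.1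
  have h2 : ∀ U : Subgroup K, U.Normal → Rp r U → U ≤ W := fun U hU hp =>
    le_sup_left.trans (hW.2 (y := U ⊔ W) ⟨inferInstance, Rp.sup hr hp hW.1.2⟩ le_sup_right)
  refine ⟨W, ?_, hW.1.2, h2⟩
  rw [characteristic_iff_map_le]
  intro e
  exact h2 _ (h1.map _ e.surjective) (hW.1.2.map_inj e.injective)

theorem le_lcs {H : Type} [Group H] {P G : Subgroup H} (h1 : P ≤ G) (h2 : P ≤ ⁅P, G⁆) (n : ℕ) :
    P ≤ G.lowerCentralSeries n := by
  induction n with
  | zero => exact h1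
  | succ n ih => exact h2.trans (commutator_mono ih le_rfl)

/-- closure under subgroups that are nilpotent modulo a normal subgroup -/
def FCl (X : Cls) : Prop := ∀ (H : Type) [Group H], X H → ∀ K G : Subgroup H, K.Normal → K ≤ G →
  (∃ n, G.lowerCentralSeries n ≤ K) → X ↥G

theorem fcl_HC {r : ℕ} (hr : r.Prime) : FCl (HC r) := by
  rintro H _ hH K G hK hKG ⟨n, hn⟩
  have := hH.1
  refine HC.of_sub hH.2.1 fun P h1 h2 h3 h4 => ?_
  have h5 : P ≤ K := (le_lcs h1 h4 n).trans hn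
  obtain ⟨W, w1, w2, w3⟩ := exists_O hr ↥K
  have h6 := w3 (P.subgroupOf K) (normal_subgroupOf_of fun g hg => h2 g (hKG hg))
    (h3.subgroupOf K)
  refine hH.hyp (W := W.map K.subtype) ConjAct.normal_of_characteristic_of_normal
    (w2.map_inj K.subtype_injective) ?_ (h4.trans (commutator_mono le_rfl le_top))
  rw [← map_subgroupOf_eq_of_le h5]
  exact map_mono h6

theorem comm_le_iff {G : Type} [Group G] {P S J : Subgroup G} [J.Normal] :
    ⁅P, S⁆ ≤ J ↔ S ≤ (centralizer (P.map (QuotientGroup.mk' J) : Set (G ⧸ J))).comap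
      (QuotientGroup.mk' J) := by
  rw [← map_le_iff_le_comap, ← commutator_eq_bot_iff_le_centralizer, commutator_comm (map _ S),
    ← map_commutator, Subgroup.map_eq_bot_iff, QuotientGroup.ker_mk']

theorem comm_sup_le {G : Type} [Group G] {P M N J : Subgroup G} [J.Normal] (h1 : ⁅P, M⁆ ≤ J)
    (h2 : ⁅P, N⁆ ≤ J) : ⁅P, M ⊔ N⁆ ≤ J := by
  rw [comm_le_iff] at *
  exact sup_le h1 h2

theorem HC.comm_le {r : ℕ} {G : Type} [Group G] [Finite G] {M P J : Subgroup G} (hM : M.Normal)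
    (h : HC r ↥M) (hP : P.Normal) (hJ : J.Normal) (hp : Rp r P) (hJP : J < P)
    (hmax : ∀ J' : Subgroup G, J'.Normal → J ≤ J' → J' < P → J' ≤ J) : ⁅P, M⁆ ≤ J := by
  by_contra hcon
  have h1 : J ⊔ ⁅P, M⁆ = P := by
    have h2 : J ⊔ ⁅P, M⁆ ≤ P := sup_le hJP.le (commutator_le_left _ _)
    rcases h2.eq_or_lt with h3 | h3
    · exact h3
    · exact absurd (le_sup_right.trans (hmax _ inferInstance le_sup_left h3)) hcon
  have hfin : {U : Subgroup G | U.Normal ∧ U ≤ P ⊓ M ∧ J ⊔ U = P}.Finite := Set.toFinite _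
  obtain ⟨U, hU⟩ := hfin.exists_minimal ⟨⁅P, M⁆, inferInstance, commutator_le_inf _ _, h1⟩
  obtain ⟨u1, u2, u3⟩ := hU.1
  have h4 : ⁅U, M⁆ ≤ U := commutator_le_left _ _
  have h5 : J ⊔ ⁅U, M⁆ = P := by
    apply le_antisymm (sup_le hJP.le (h4.trans (u2.trans inf_le_left)))
    have h6 : ⁅M, J ⊔ U⁆ ≤ J ⊔ ⁅U, M⁆ :=
      comm_sup_le ((commutator_le_right _ _).trans le_sup_left)
        ((commutator_comm_le _ _).trans le_sup_right)
    rw [u3, commutator_comm] at h6
    calc P = J ⊔ ⁅P, M⁆ := h1.symm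
      _ ≤ J ⊔ ⁅U, M⁆ := sup_le le_sup_left h6
  have h7 : U ≤ ⁅U, M⁆ := hU.2 ⟨inferInstance, h4.trans u2, h5⟩ h4
  have h8 := h.sub (u2.trans inf_le_right) inferInstance (hp.mono (u2.trans inf_le_left)) h7
  rw [h8, sup_bot_eq] at u3
  exact hJP.ne u3

theorem HC.iso {r : ℕ} {G H : Type} [Group G] [Group H] (e : G ≃* H) (h : HC r G) : HC r H := by
  obtain ⟨h1, h2, h⟩ := h
  refine ⟨Finite.of_equiv _ e.toEquiv,
    Group.isSolvable_of_surjective (f := e.toMonoidHom) e.surjective, fun P hP hp hle => ?_⟩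
  have := h (P.map e.symm.toMonoidHom) (hP.map _ e.symm.surjective)
    (hp.map_inj e.symm.injective) (by
      have := map_mono (f := e.symm.toMonoidHom) hle
      rw [map_commutator] at this
      exact this.trans (commutator_mono le_rfl le_top))
  exact (map_eq_bot_iff_of_injective P e.symm.injective).1 this

theorem fit_HC {r : ℕ} (hr : r.Prime) : Fit (HC r) where
  fin := fun G _ h => ⟨h.1, h.2.1⟩
  iso := by
    rintro G H _ _ ⟨e⟩ h
    exact h.iso e
  nor := fun G _ N hN h => fcl_HC hr G h N N hN le_rfl ⟨0, le_rfl⟩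
  sup := by
    intro G _ _ hs M N hM hN h1 h2
    have key : ∀ (G : Type) [Group G] [Finite G], Group.IsSolvable G → ∀ M N : Subgroup G,
        M.Normal → N.Normal → HC r ↥M → HC r ↥N → M ⊔ N = ⊤ → HC r G := by
      intro G _ _ hs M N hM hN h1 h2 htop
      refine ⟨inferInstance, hs, fun P hP hp hle => ?_⟩
      by_contra hne
      have hfin : {J : Subgroup G | J.Normal ∧ J < P}.Finite := Set.toFinite _
      obtain ⟨J, hJ⟩ := hfin.exists_maximal ⟨⊥, inferInstance, bot_lt_iff_ne_bot.2 hne⟩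
      obtain ⟨j1, j2⟩ := hJ.1
      have hmax : ∀ J' : Subgroup G, J'.Normal → J ≤ J' → J' < P → J' ≤ J :=
        fun J' a b c => hJ.2 ⟨a, c⟩ b
      have := comm_sup_le (h1.comm_le hM hP j1 hp j2 hmax) (h2.comm_le hN hP j1 hp j2 hmax)
      rw [htop] at this
      exact j2.not_ge (hle.trans this)
    refine key ↥(M ⊔ N) inferInstance (M.subgroupOf _) (N.subgroupOf _) inferInstance
      inferInstance (h1.iso (subgroupOfEquivOfLe le_sup_left).symm)
      (h2.iso (subgroupOfEquivOfLe le_sup_right).symm) ?_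
    rw [← subgroupOf_sup le_sup_left le_sup_right, subgroupOf_self]
  triv := by
    intro G _ _
    exact ⟨inferInstance, inferInstance, fun P _ _ _ => Subsingleton.elim _ _⟩
  proj := by
    intro G H _ _ _ _ h1 h2 K hK h
    refine HC.of_sub h1 fun P hP hn hp hle => ?_
    have i1 : Function.Injective (MonoidHom.inl G H) := fun a b h => congrArg Prod.fst h
    have h3 : P.map (MonoidHom.inl G H) ≤ ⁅P.map (MonoidHom.inl G H), K⁆ := by
      refine (map_mono hle).trans ?_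
      rw [map_le_iff_le_comap, commutator_le]
      rintro p hp _ ⟨k, hk, rfl⟩
      have : (MonoidHom.inl G H) ⁅p, (MonoidHom.fst G H) k⁆ = ⁅(MonoidHom.inl G H) p, k⁆ := by
        ext <;> simp [commutatorElement_def]
      rw [mem_comap, this]
      exact commutator_mem_commutator ⟨p, hp, rfl⟩ hk
    have := h.sub (h3.trans (commutator_le_right _ _))
      (normal_subgroupOf_of (by
        rintro k hk _ ⟨p, hp, rfl⟩
        refine ⟨_, hn k.1 ⟨k, hk, rfl⟩ p hp, ?_⟩
        ext <;> simp))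
      (hp.map_inj i1) h3
    exact (map_eq_bot_iff_of_injective P i1).1 this

theorem HC.quot {r : ℕ} {G Q Q' : Type} [Group G] [Group Q] [Group Q'] [Finite G]
    (hs : Group.IsSolvable G) (φ : G →* Q) (g : G →* Q') (hg : Function.Surjective g)
    (K : Subgroup G) (hK : K.Normal) {n : ℕ} (hn : (⊤ : Subgroup G).lowerCentralSeries n ≤ K)
    (h1 : φ.ker ≤ g.ker) (h2 : g.ker ⊓ K ≤ φ.ker) (h : HC r ↥φ.range) : HC r Q' := by
  refine ⟨Finite.of_surjective g hg, Group.isSolvable_of_surjective hg, fun Pb hPb hp hle => ?_⟩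
  have htop : (⊤ : Subgroup G).map g = ⊤ := map_top_of_surjective g hg
  have h3 : Pb ≤ K.map g := by
    refine (le_lcs le_top hle n).trans ?_
    rw [← htop, ← map_lowerCentralSeries]
    exact map_mono hn
  set P : Subgroup G := Pb.comap g ⊓ K with hP
  have hPn : P.Normal := inferInstance
  have h4 : P.map g = Pb := by
    apply le_antisymm
    · rintro _ ⟨x, hx, rfl⟩; exact hx.1
    · intro y hy
      obtain ⟨k, hk, rfl⟩ := h3 hy
      exact ⟨k, mem_inf.2 ⟨hy, hk⟩, rfl⟩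
  have h5 : P.map φ = ⊥ := by
    refine h.sub (map_le_range φ P) (normal_subgroupOf_of ?_) ?_ ?_
    · rintro _ ⟨a, rfl⟩ _ ⟨x, hx, rfl⟩
      exact ⟨_, hPn.conj_mem x hx a, by simp⟩
    · rintro _ ⟨x, hx, rfl⟩ hxr
      have k1 : x ^ r ∈ g.ker := h1 (by rw [MonoidHom.mem_ker, map_pow]; exact hxr)
      have k2 : g x = 1 := hp _ hx.1 (by rw [← map_pow]; exact k1)
      exact h2 (mem_inf.2 ⟨k2, hx.2⟩)
    · rw [MonoidHom.range_eq_map, ← map_commutator]
      rintro _ ⟨x, hx, rfl⟩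
      have k1 : g x ∈ (⁅P, ⊤⁆ : Subgroup G).map g := by
        rw [map_commutator, h4, htop]; exact hle hx.1
      obtain ⟨c, hc, hcx⟩ := k1
      have k2 : c ∈ P := commutator_le_left P ⊤ hc
      have k3 : c⁻¹ * x ∈ φ.ker := h2 (mem_inf.2 ⟨by
        rw [MonoidHom.mem_ker, map_mul, map_inv, hcx, inv_mul_cancel],
        K.mul_mem (K.inv_mem k2.2) hx.2⟩)
      refine ⟨c, hc, ?_⟩
      rw [MonoidHom.mem_ker, map_mul, map_inv, inv_mul_eq_one] at k3
      exact k3
  rw [Subgroup.map_eq_bot_iff] at h5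
  rw [← h4, Subgroup.map_eq_bot_iff]
  exact h5.trans h1

theorem fcl_FP {A : Cls} (hA : Fit A) (hF : FCl A) {r : ℕ} (hr : r.Prime) :
    FCl (FP A (HC r)) := by
  rintro H _ hH K G hK hKG ⟨n, hn⟩
  have hB := fit_HC hr
  have := hH.1
  have hs := hH.2.1
  obtain ⟨Q, _, _, f, q1, q2, q3⟩ := exists_quot hA H hs
  rw [FP_iff hB hs f q3, MonoidHom.range_eq_top.2 q2, hB.top] at hH
  have h1 : HC r ↥(G.map f) := fcl_HC hr Q hH (K.map f) (G.map f) (hK.map f q2) (map_mono hKG)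
    ⟨n, by rw [← map_lowerCentralSeries]; exact map_mono hn⟩
  obtain ⟨r1, r2⟩ := rad_spec hA H hs
  set R := rad A H with hR
  have h2 : A ↥(G.subgroupOf R) := hF ↥R r2 (K.subgroupOf R) (G.subgroupOf R) inferInstance
    (comap_mono hKG) ⟨n, by
      rw [subgroupOf, subgroupOf, ← map_le_iff_le_comap, map_lowerCentralSeries]
      exact (lowerCentralSeries_mono n (map_comap_le _ _)).trans hn⟩
  have h3 : A ↥(R.subgroupOf G) := by
    rw [← hA.map_inj R.subtype R.subtype_injective, subgroupOf_map_subtype] at h2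
    rw [← hA.map_inj G.subtype G.subtype_injective, subgroupOf_map_subtype, inf_comm]
    exact h2
  obtain ⟨Q', _, _, g, s1, s2, s3⟩ := exists_quot hA ↥G inferInstance
  obtain ⟨t1, t2⟩ := rad_spec hA ↥G inferInstance
  rw [FP_iff hB inferInstance g s3, MonoidHom.range_eq_top.2 s2, hB.top]
  have hk : (f.comp G.subtype).ker = R.subgroupOf G := by rw [← q3]; rfl
  refine HC.quot inferInstance (f.comp G.subtype) g s2 (K.subgroupOf G) inferInstance (n := n)
    ?_ ?_ ?_ ?_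
  · rw [subgroupOf, ← map_le_iff_le_comap, top_subtype_lowerCentralSeries]
    exact hn
  · rw [hk, s3]
    exact le_rad inferInstance h3
  · rw [hk, s3]
    set S := (rad A ↥G ⊓ K.subgroupOf G).map G.subtype with hS
    have k1 : S ≤ K := by
      rintro _ ⟨x, hx, rfl⟩; exact hx.2
    have k2 : A ↥S := (hA.map_inj _ G.subtype_injective _).2
      (hA.nor_le inf_le_left inferInstance t2)
    have k3 : (S.subgroupOf K).Normal := normal_subgroupOf_of (by
      rintro k hk _ ⟨x, hx, rfl⟩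
      exact ⟨_, (inferInstance : (rad A ↥G ⊓ K.subgroupOf G).Normal).conj_mem x hx ⟨k, hKG hk⟩,
        rfl⟩)
    have k4 : S.subgroupOf K ≤ R.subgroupOf K := by
      rw [hR, rad_sub hA hs K]
      exact le_rad k3 (hA.iso _ _ ⟨(subgroupOfEquivOfLe k1).symm⟩ k2)
    intro x hx
    have k5 : (⟨x, hx.2⟩ : K) ∈ S.subgroupOf K := ⟨x, hx, rfl⟩
    exact k4 k5
  · rw [MonoidHom.range_comp, range_subtype]
    exact h1

theorem subnormal_le_rad {X : Cls} (hX : Fit X) {G : Type} [Group G] [Finite G]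
    (hs : Group.IsSolvable G) {S : Subgroup G} (hS : S.IsSubnormal) : X ↥S → S ≤ rad X G := by
  have key : ∀ S : Subgroup G, S.IsSubnormal → (rad X ↥S).map S.subtype ≤ rad X G := by
    intro S hS
    induction hS with
    | top => exact rad_map_le hX inferInstance topEquiv
    | step H K hle _ hN ih =>
      refine le_trans ?_ ih
      rintro _ ⟨x, hx, rfl⟩
      have h1 := rad_map_le hX inferInstance (subgroupOfEquivOfLe hle).symm ⟨x, hx, rfl⟩
      rw [← rad_sub hX inferInstance (H.subgroupOf K)] at h1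
      exact ⟨_, h1, rfl⟩
  intro h
  refine le_trans ?_ (key S hS)
  intro x hx
  exact ⟨⟨x, hx⟩, le_rad (K := ⊤) inferInstance (hX.top.2 h) (mem_top _), rfl⟩

theorem HC.zc {r : ℕ} {G : Type} [Group G] (h : HC r G) : ZC r G := by
  have := h.1
  refine ⟨h.1, h.2.1, fun P hP hp hne => ?_⟩
  obtain ⟨L, hL1, hL2, hL3, hL4⟩ := exists_min hP hne
  rcases hL4 ⁅L, ⊤⁆ inferInstance (commutator_le_left _ _) with h1 | h1
  · obtain ⟨z, hz, hz1⟩ := (bot_or_exists_ne_one L).resolve_left hL3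
    rw [commutator_top_right_eq_bot_iff_le_center] at h1
    exact ⟨z, hL1 hz, hz1, mem_center_iff.1 (h1 hz)⟩
  · exact absurd (h.2.2 L hL2 (hp.mono hL1) h1.ge) hL3

theorem rad_HC_le {r : ℕ} {G : Type} [Group G] : rad (HC r) G ≤ rad (ZC r) G :=
  rad_le fun _ h1 h2 => le_rad h1 h2.zc

/-! ### The example -/

abbrev YY : Cls := FP (HC 7) (HC 2)

theorem fitH7 : Fit (HC 7) := fit_HC (by norm_num)
theorem fitH2 : Fit (HC 2) := fit_HC (by norm_num)
theorem fitY : Fit YY := fitH7.fp fitH2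
theorem fclY : FCl YY := fcl_FP fitH7 (fcl_HC (by norm_num)) (by norm_num)

theorem HC_HH : HC 7 HH := by
  refine ⟨inferInstance, inferInstance, fun P hP hp _ => ?_⟩
  rw [eq_bot_iff]
  intro x hx
  refine hp x hx (HH.pow7 (HH.cent fun v => comm_of (hp _ ?_ (HH.pow7 ?_))))
  · exact P.mul_mem hx (hP.conj_mem _ (P.inv_mem hx) _)
  · simp

theorem Y_HH : YY HH := by
  unfold YY
  rw [FP_iff fitH2 inferInstance (1 : HH →* PUnit)]
  · exact fitH2.triv _
  · rw [MonoidHom.ker_one]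
    exact le_antisymm (le_rad inferInstance (fitH7.top.2 HC_HH)) le_top

theorem HC_S4 : HC 2 S4 := by
  refine ⟨inferInstance, inferInstance, fun P hP hp _ => ?_⟩
  rw [eq_bot_iff]
  intro x hx
  by_contra h
  rcases d11 x h with h1 | ⟨ρ, h1, h2⟩
  · exact h (hp x hx h1)
  · exact h1 (hp _ (P.mul_mem hx (hP.conj_mem x hx ρ)) h2)

theorem ker_g1' : g1.ker = rad (HC 7) H1 := by
  refine le_antisymm ?_ (ker_g1 ▸ rad_HC_le)
  refine le_rad inferInstance (HC.of_central inferInstance fun P hP _ _ z hz g hg => ?_)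
  have h1 : z.1.2.τ = 1 := hP hz
  have h2 : g.1.2.τ = 1 := hg
  have h3 := mem_Fib.1 z.2
  have h4 := mem_Fib.1 g.2
  rw [sD_apply, h1, inv_one, mul_one] at h3
  rw [sD_apply, h2, inv_one, mul_one] at h4
  exact Subtype.ext (Prod.ext (d4 _ _ h4 h3) (DD.comm h2 h1))

theorem Y_H1 : YY H1 := by
  unfold YY
  rw [FP_iff fitH2 inferInstance g1 ker_g1', MonoidHom.range_eq_top.2, fitH2.top]
  · exact HC_S4
  · intro τ
    exact ⟨⟨_, diag_mem sD ⟨0, τ⟩⟩, rfl⟩

theorem ker_g2' : g2.ker = rad (HC 7) GG := by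
  refine le_antisymm ?_ (ker_g2 ▸ rad_HC_le)
  refine le_rad inferInstance (HC.of_central inferInstance fun P hP hn hp z hz g hg => ?_)
  have hm : ∀ y : HH, y.d.τ = 1 → ((1 : S4), y) ∈ Fib (sD.comp qH) := by
    intro y hy
    rw [mem_Fib]
    simp [hy]
  have hc : ∀ (y : HH) (hy : y.d.τ = 1), z.1.2.d * y.d = y.d * z.1.2.d →
      z.1.2 * y = y * z.1.2 := by
    intro y hy hd
    have h1 : z * (⟨_, hm y hy⟩ * z⁻¹ * (⟨_, hm y hy⟩ : GG)⁻¹) ∈ P :=
      P.mul_mem hz (hn _ (mem_ker_g2.2 (by simp [hy])) _ (P.inv_mem hz))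
    have h2 := hp _ h1 (Subtype.ext (Prod.ext (by simp) (HH.pow7 (by
      show z.1.2.d * (y.d * (z.1.2.d)⁻¹ * (y.d)⁻¹) = 1
      rw [← mul_assoc, ← mul_assoc, hd]; group))))
    exact congrArg (fun w : GG => w.1.2) (comm_of h2)
  have h1 : z.1.2.d = 1 := HH.cent fun v => hc _ rfl (by simp)
  have h2 : z.1.2 = 1 := by
    refine HH.ext (funext fun i => om_one _ ?_) h1
    have := congrArg (fun w : HH => w.v i) (hc ⟨0, ⟨fun _ => 1, 1⟩⟩ rfl (by simp [h1]))
    simpa using this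
  refine Subtype.ext (Prod.ext ?_ (by simp [h2]))
  exact d4 _ _ (fst_mem.2 (mem_ker_g2.1 hg)) (fst_mem.2 (mem_ker_g2.1 (hP hz)))

theorem not_Y_GG : ¬ YY GG := by
  unfold YY
  rw [FP_iff fitH2 inferInstance g2 ker_g2']
  intro h
  exact not_X_GG ((FP_iff fit2 inferInstance g2 ker_g2).2 h.zc)

end Pool.Agent.H540Z.Lock
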