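import Mathlib

set_option autoImplicit false

namespace Pool.Agent.H540Z.Lock

open Subgroup

abbrev Cls := (G : Type) → [Group G] → Prop

/-- A Fitting class of finite soluble groups closed under projections of normal subgroups of
direct products. -/
structure Fit (X : Cls) : Prop where
  fin : ∀ (G : Type) [Group G], X G → Finite G ∧ Group.IsSolvable G
  iso : ∀ (G H : Type) [Group G] [Group H], Nonempty (G ≃* H) → X G → X H
  nor : ∀ (G : Type) [Group G] (N : Subgroup G), N.Normal → X G → X ↥N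
  sup : ∀ (G : Type) [Group G] [Finite G], Group.IsSolvable G →
    ∀ (M N : Subgroup G), M.Normal → N.Normal → X ↥M → X ↥N → X ↥(M ⊔ N)
  triv : ∀ (G : Type) [Group G] [Subsingleton G], X G
  proj : ∀ (G H : Type) [Group G] [Group H] [Finite G] [Finite H], Group.IsSolvable G →
    Group.IsSolvable H → ∀ K : Subgroup (G × H), K.Normal → X ↥K →
      X ↥(K.map (MonoidHom.fst G H))

/-- the radical -/
def rad (X : Cls) (G : Type) [Group G] : Subgroup G :=
  ⨆ (K : Subgroup G) (_ : K.Normal ∧ X ↥K), K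

theorem le_rad {X : Cls} {G : Type} [Group G] {K : Subgroup G} (h1 : K.Normal) (h2 : X ↥K) :
    K ≤ rad X G :=
  le_iSup₂_of_le (f := fun (K : Subgroup G) (_ : K.Normal ∧ X ↥K) => K) K ⟨h1, h2⟩ le_rfl

theorem rad_le {X : Cls} {G : Type} [Group G] {S : Subgroup G}
    (h : ∀ K : Subgroup G, K.Normal → X ↥K → K ≤ S) : rad X G ≤ S :=
  iSup₂_le fun K hK => h K hK.1 hK.2

theorem rad_spec {X : Cls} (hX : Fit X) (G : Type) [Group G] [Finite G]
    (hs : Group.IsSolvable G) : (rad X G).Normal ∧ X ↥(rad X G) := by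
  have hfin : {K : Subgroup G | K.Normal ∧ X ↥K}.Finite := Set.toFinite _
  obtain ⟨K, hK⟩ := hfin.exists_maximal ⟨⊥, inferInstance, hX.triv _⟩
  have : rad X G = K := by
    refine le_antisymm (rad_le fun L h1 h2 => ?_) (le_rad hK.1.1 hK.1.2)
    have h3 := hK.1.1
    have h4 : K ⊔ L ≤ K := hK.2 ⟨inferInstance, hX.sup G hs K L hK.1.1 h1 hK.1.2 h2⟩ le_sup_left
    exact le_sup_right.trans h4
  rw [this]; exact hK.1

theorem Fit.map_inj {X : Cls} (hX : Fit X) {G H : Type} [Group G] [Group H] (f : G →* H)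
    (hf : Function.Injective f) (K : Subgroup G) : X ↥(K.map f) ↔ X ↥K :=
  ⟨hX.iso _ _ ⟨(K.equivMapOfInjective f hf).symm⟩, hX.iso _ _ ⟨K.equivMapOfInjective f hf⟩⟩

theorem Fit.nor_le {X : Cls} (hX : Fit X) {G : Type} [Group G] {K L : Subgroup G} (h : K ≤ L)
    (hK : (K.subgroupOf L).Normal) (hL : X ↥L) : X ↥K :=
  hX.iso _ _ ⟨subgroupOfEquivOfLe h⟩ (hX.nor _ _ hK hL)

theorem Fit.top {X : Cls} (hX : Fit X) {G : Type} [Group G] : X ↥(⊤ : Subgroup G) ↔ X G :=
  ⟨hX.iso _ _ ⟨topEquiv⟩, hX.iso _ _ ⟨topEquiv.symm⟩⟩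

theorem rad_map_le {X : Cls} (hX : Fit X) {G H : Type} [Group G] [Group H] [Finite G]
    (hs : Group.IsSolvable G) (e : G ≃* H) : (rad X G).map e.toMonoidHom ≤ rad X H :=
  le_rad ((rad_spec hX G hs).1.map _ e.surjective)
    ((hX.map_inj _ e.injective _).2 (rad_spec hX G hs).2)

theorem rad_sub {X : Cls} (hX : Fit X) {G : Type} [Group G] [Finite G]
    (hs : Group.IsSolvable G) (N : Subgroup G) [hN : N.Normal] :
    (rad X G).subgroupOf N = rad X ↥N := by
  obtain ⟨h1, h2⟩ := rad_spec hX G hs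
  obtain ⟨h3, h4⟩ := rad_spec hX ↥N inferInstance
  apply le_antisymm
  · refine le_rad inferInstance ?_
    rw [← hX.map_inj N.subtype N.subtype_injective, subgroupOf_map_subtype]
    exact hX.nor_le inf_le_left inferInstance h2
  · have h5 : (rad X ↥N).Characteristic := by
      rw [characteristic_iff_map_le]
      intro e
      exact rad_map_le hX inferInstance e
    have h6 : ((rad X ↥N).map N.subtype).Normal := ConjAct.normal_of_characteristic_of_normal
    have h7 := le_rad h6 ((hX.map_inj N.subtype N.subtype_injective _).2 h4)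
    intro x hx
    exact h7 ⟨x, hx, rfl⟩

theorem Fit.proj_snd {X : Cls} (hX : Fit X) (G H : Type) [Group G] [Group H] [Finite G] [Finite H]
    (h1 : Group.IsSolvable G) (h2 : Group.IsSolvable H) (K : Subgroup (G × H)) (hK : K.Normal)
    (hXK : X ↥K) : X ↥(K.map (MonoidHom.snd G H)) := by
  let e : G × H ≃* H × G := MulEquiv.prodComm
  have := hX.proj H G h2 h1 (K.map e.toMonoidHom) (hK.map _ e.surjective)
    ((hX.map_inj _ e.injective _).2 hXK)
  rw [map_map] at this
  exact this

theorem rad_prod {X : Cls} (hX : Fit X) (G H : Type) [Group G] [Group H] [Finite G] [Finite H]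
    (h1 : Group.IsSolvable G) (h2 : Group.IsSolvable H) :
    rad X (G × H) = (rad X G).prod (rad X H) := by
  apply le_antisymm
  · refine rad_le fun K hK hXK => ?_
    rw [le_prod_iff]
    exact ⟨le_rad (hK.map _ Prod.fst_surjective) (hX.proj G H h1 h2 K hK hXK),
      le_rad (hK.map _ Prod.snd_surjective) (hX.proj_snd G H h1 h2 K hK hXK)⟩
  · obtain ⟨a1, a2⟩ := rad_spec hX G h1
    obtain ⟨b1, b2⟩ := rad_spec hX H h2
    have e1 : (rad X G).map (MonoidHom.inl G H) = (rad X G).prod ⊥ := by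
      ext ⟨x, y⟩
      simp only [mem_map, MonoidHom.inl_apply, Prod.mk.injEq, mem_prod, mem_bot]
      constructor
      · rintro ⟨a, ha, rfl, rfl⟩; exact ⟨ha, rfl⟩
      · rintro ⟨ha, rfl⟩; exact ⟨x, ha, rfl, rfl⟩
    have e2 : (rad X H).map (MonoidHom.inr G H) = (⊥ : Subgroup G).prod (rad X H) := by
      ext ⟨x, y⟩
      simp only [mem_map, MonoidHom.inr_apply, Prod.mk.injEq, mem_prod, mem_bot]
      constructor
      · rintro ⟨a, ha, rfl, rfl⟩; exact ⟨rfl, ha⟩
      · rintro ⟨rfl, ha⟩; exact ⟨y, ha, rfl, rfl⟩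
    have i1 : Function.Injective (MonoidHom.inl G H) := fun a b h => congrArg Prod.fst h
    have i2 : Function.Injective (MonoidHom.inr G H) := fun a b h => congrArg Prod.snd h
    have k1 : (rad X G).prod ⊥ ≤ rad X (G × H) :=
      le_rad inferInstance (by rw [← e1]; exact (hX.map_inj _ i1 _).2 a2)
    have k2 : (⊥ : Subgroup G).prod (rad X H) ≤ rad X (G × H) :=
      le_rad inferInstance (by rw [← e2]; exact (hX.map_inj _ i2 _).2 b2)
    rintro ⟨x, y⟩ ⟨hx, hy⟩
    have : ((x, y) : G × H) = (x, 1) * (1, y) := by simp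
    rw [this]
    exact mul_mem (k1 ⟨hx, one_mem _⟩) (k2 ⟨one_mem _, hy⟩)

/-! ### The Fitting product -/

/-- groups whose quotient by the `A`-radical is in `B` -/
def FP (A B : Cls) : Cls := fun G _ => Finite G ∧ Group.IsSolvable G ∧
  ∃ (Q : Type) (_ : Group Q) (f : G →* Q), f.ker = rad A G ∧ B ↥f.range

theorem range_iso {G Q Q' : Type} [Group G] [Group Q] [Group Q'] {f : G →* Q} {g : G →* Q'}
    (h : f.ker = g.ker) : Nonempty (↥f.range ≃* ↥g.range) :=
  ⟨((QuotientGroup.quotientKerEquivRange f).symm.trans (QuotientGroup.quotientMulEquivOfEq h)).trans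
    (QuotientGroup.quotientKerEquivRange g)⟩

theorem FP_iff {A B : Cls} (hB : Fit B) {G Q : Type} [Group G] [Group Q] [Finite G]
    (hs : Group.IsSolvable G) (f : G →* Q) (hf : f.ker = rad A G) : FP A B G ↔ B ↥f.range := by
  constructor
  · rintro ⟨-, -, Q', _, g, hg, h⟩
    exact hB.iso _ _ (range_iso (hg.trans hf.symm)) h
  · intro h
    exact ⟨inferInstance, hs, Q, inferInstance, f, hf, h⟩

theorem FP_sub {A B : Cls} (hA : Fit A) (hB : Fit B) {G Q : Type} [Group G] [Group Q] [Finite G]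
    (hs : Group.IsSolvable G) (f : G →* Q) (hf : f.ker = rad A G) (S : Subgroup G) [S.Normal] :
    FP A B ↥S ↔ B ↥(S.map f) := by
  rw [FP_iff hB inferInstance (f.comp S.subtype)]
  · rw [MonoidHom.range_comp, range_subtype]
  · rw [← rad_sub hA hs, ← hf]; rfl

theorem exists_quot {A : Cls} (hA : Fit A) (G : Type) [Group G] [Finite G]
    (hs : Group.IsSolvable G) : ∃ (Q : Type) (_ : Group Q) (_ : Finite Q) (f : G →* Q),
      Group.IsSolvable Q ∧ Function.Surjective f ∧ f.ker = rad A G := by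
  have := (rad_spec hA G hs).1
  exact ⟨G ⧸ rad A G, inferInstance, inferInstance, QuotientGroup.mk' _, inferInstance,
    QuotientGroup.mk'_surjective _, QuotientGroup.ker_mk' _⟩

theorem Fit.fp {A B : Cls} (hA : Fit A) (hB : Fit B) : Fit (FP A B) where
  fin := fun G _ h => ⟨h.1, h.2.1⟩
  iso := by
    rintro G H _ _ ⟨e⟩ ⟨h1, h2, Q, _, f, hf, h⟩
    have h3 : Finite H := Finite.of_equiv _ e.toEquiv
    have h4 : Group.IsSolvable H := Group.isSolvable_of_surjective (f := e.toMonoidHom) e.surjective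
    refine ⟨h3, h4, Q, inferInstance, f.comp e.symm.toMonoidHom, ?_, ?_⟩
    · rw [← MonoidHom.comap_ker, hf]
      apply le_antisymm
      · intro x hx
        exact rad_map_le hA h2 e ⟨e.symm x, hx, by simp⟩
      · intro x hx
        exact rad_map_le hA h4 e.symm ⟨x, hx, rfl⟩
    · rw [MonoidHom.range_comp, MonoidHom.range_eq_top.2 e.symm.surjective,
        ← MonoidHom.range_eq_map]
      exact h
  nor := by
    intro G _ N hN h
    have h1 := h.1
    obtain ⟨Q, _, _, f, q1, q2, q3⟩ := exists_quot hA G h.2.1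
    rw [FP_sub hA hB h.2.1 f q3]
    rw [FP_iff hB h.2.1 f q3, MonoidHom.range_eq_top.2 q2, hB.top] at h
    exact hB.nor _ _ (hN.map f q2) h
  sup := by
    intro G _ _ hs M N hM hN h1 h2
    obtain ⟨Q, _, _, f, q1, q2, q3⟩ := exists_quot hA G hs
    rw [FP_sub hA hB hs f q3] at h1 h2 ⊢
    rw [Subgroup.map_sup]
    exact hB.sup Q q1 _ _ (hM.map f q2) (hN.map f q2) h1 h2
  triv := by
    intro G _ _
    exact ⟨inferInstance, inferInstance, G, inferInstance, MonoidHom.id G,
      Subsingleton.elim _ _, hB.triv _⟩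
  proj := by
    intro G H _ _ _ _ h1 h2 K hK h
    obtain ⟨Q, _, _, f, q1, q2, q3⟩ := exists_quot hA G h1
    obtain ⟨Q', _, _, g, r1, r2, r3⟩ := exists_quot hA H h2
    have hn : (K.map (MonoidHom.fst G H)).Normal := hK.map _ Prod.fst_surjective
    rw [FP_sub hA hB h1 f q3]
    have hk : (f.prodMap g).ker = rad A (G × H) := by
      rw [MonoidHom.ker_prodMap, q3, r3, rad_prod hA G H h1 h2]
    rw [FP_sub hA hB inferInstance _ hk] at h
    have := hB.proj Q Q' q1 r1 _ (hK.map (f.prodMap g) (q2.prodMap r2)) h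
    rw [map_map] at this ⊢
    exact this

/-! ### The classes defined by central elements in normal `r'`-subgroups -/

/-- no element of order `r` -/
def Rp (r : ℕ) {G : Type} [Group G] (P : Subgroup G) : Prop := ∀ x ∈ P, x ^ r = 1 → x = 1

theorem Rp.mono {r : ℕ} {G : Type} [Group G] {P P' : Subgroup G} (h : Rp r P) (hle : P' ≤ P) :
    Rp r P' := fun x hx => h x (hle hx)

theorem Rp.sup {r : ℕ} (hr : r.Prime) {G : Type} [Group G] [Finite G] {U M : Subgroup G}
    [M.Normal] (hU : Rp r U) (hM : Rp r M) : Rp r (U ⊔ M) := by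
  intro x hx hxr
  obtain ⟨u, hu, m, hm, rfl⟩ := mem_sup_of_normal_right.1 hx
  have h1 : u ^ r ∈ M := by
    rw [← QuotientGroup.eq_one_iff]
    have h2 : ((u * m : G) : G ⧸ M) = u := by
      rw [QuotientGroup.mk_mul, (QuotientGroup.eq_one_iff m).2 hm, mul_one]
    rw [QuotientGroup.mk_pow, ← h2, ← QuotientGroup.mk_pow, hxr, QuotientGroup.mk_one]
  have h3 : r.Coprime (orderOf u) := by
    rw [hr.coprime_iff_not_dvd]
    rintro ⟨k, hk⟩
    have h4 : (u ^ k) ^ r = 1 := by rw [← pow_mul, mul_comm, ← hk, pow_orderOf_eq_one]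
    have h5 := hU _ (pow_mem hu k) h4
    have h6 := orderOf_dvd_of_pow_eq_one h5
    have h7 : 0 < orderOf u := orderOf_pos u
    have hk0 : 0 < k := Nat.pos_of_ne_zero (by rintro rfl; omega)
    have h8 := Nat.le_of_dvd hk0 h6
    have := hr.two_le
    nlinarith
  obtain ⟨k, hk⟩ := exists_pow_eq_self_of_coprime h3
  have h9 : u ∈ M := hk ▸ pow_mem h1 k
  exact hM _ (mul_mem h9 hm) hxr

/-- every nontrivial normal `r'`-subgroup meets the centre -/
def ZC (r : ℕ) : Cls := fun G _ => Finite G ∧ Group.IsSolvable G ∧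
  ∀ P : Subgroup G, P.Normal → Rp r P → P ≠ ⊥ → ∃ z ∈ P, z ≠ 1 ∧ ∀ g : G, g * z = z * g

theorem exists_min {G : Type} [Group G] [Finite G] {P : Subgroup G} (hP : P.Normal) (h : P ≠ ⊥) :
    ∃ L : Subgroup G, L ≤ P ∧ L.Normal ∧ L ≠ ⊥ ∧
      ∀ L' : Subgroup G, L'.Normal → L' ≤ L → L' = ⊥ ∨ L' = L := by
  have hfin : {L : Subgroup G | L ≤ P ∧ L.Normal ∧ L ≠ ⊥}.Finite := Set.toFinite _
  obtain ⟨L, hL⟩ := hfin.exists_minimal ⟨P, le_rfl, hP, h⟩
  refine ⟨L, hL.1.1, hL.1.2.1, hL.1.2.2, fun L' h1 h2 => ?_⟩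
  by_cases h3 : L' = ⊥
  · exact Or.inl h3
  · exact Or.inr (le_antisymm h2 (hL.2 ⟨h2.trans hL.1.1, h1, h3⟩ h2))

/-- a form of the defining property for a subgroup -/
theorem ZC.sub {r : ℕ} {G : Type} [Group G] {K : Subgroup G} (hK : ZC r ↥K) {P : Subgroup G}
    (hle : P ≤ K) (hn : (P.subgroupOf K).Normal) (hr : Rp r P) (hne : P ≠ ⊥) :
    ∃ z ∈ P, z ≠ 1 ∧ ∀ g ∈ K, g * z = z * g := by
  obtain ⟨z, hz, hz1, hzc⟩ := hK.2.2 (P.subgroupOf K) hn
    (fun x hx h => Subtype.ext (hr x hx (congrArg Subtype.val h)))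
    (by
      intro h
      apply hne
      rw [subgroupOf_eq_bot] at h
      exact h.eq_bot_of_le hle)
  exact ⟨z, hz, fun h => hz1 (Subtype.ext h), fun g hg => congrArg Subtype.val (hzc ⟨g, hg⟩)⟩

theorem ZC.of_sub {r : ℕ} {G : Type} [Group G] [Finite G] (hs : Group.IsSolvable G)
    {K : Subgroup G}
    (h : ∀ P : Subgroup G, P ≤ K → (∀ g ∈ K, ∀ x ∈ P, g * x * g⁻¹ ∈ P) → Rp r P → P ≠ ⊥ →
      ∃ z ∈ P, z ≠ 1 ∧ ∀ g ∈ K, g * z = z * g) : ZC r ↥K := by
  refine ⟨inferInstance, inferInstance, fun P hP hr hne => ?_⟩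
  obtain ⟨z, ⟨z', hz', rfl⟩, hz1, hzc⟩ := h (P.map K.subtype) (map_subtype_le P)
    (by
      rintro g hg _ ⟨x, hx, rfl⟩
      exact ⟨_, hP.conj_mem x hx ⟨g, hg⟩, rfl⟩)
    (by
      rintro _ ⟨x, hx, rfl⟩ h
      have := hr x hx (Subtype.ext h)
      rw [this]; rfl)
    (by
      intro h
      exact hne ((map_eq_bot_iff_of_injective P K.subtype_injective).1 h))
  exact ⟨z', hz', fun h => hz1 (by rw [h]; rfl), fun g => Subtype.ext (hzc g g.2)⟩

theorem cent_min {r : ℕ} {G : Type} [Group G] {L M : Subgroup G} (hL : L.Normal) (hM : M.Normal)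
    (hmin : ∀ L' : Subgroup G, L'.Normal → L' ≤ L → L' = ⊥ ∨ L' = L) (hr : Rp r L)
    (hZ : ZC r ↥M) : M ≤ centralizer (L : Set G) := by
  rcases hmin (L ⊓ M) inferInstance inf_le_left with h | h
  · intro m hm
    rw [mem_centralizer_iff]
    intro l hl
    exact commute_of_normal_of_disjoint L M hL hM (disjoint_iff.2 h) l m hl hm
  · have hle : L ≤ M := h ▸ inf_le_right
    by_cases hb : L = ⊥
    · intro m _
      rw [mem_centralizer_iff]
      intro l hl
      rw [hb] at hl
      rw [SetLike.mem_coe, mem_bot] at hl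
      simp [hl]
    obtain ⟨z, hz, hz1, hzc⟩ := hZ.sub hle inferInstance hr hb
    rcases hmin (L ⊓ centralizer (M : Set G)) inferInstance inf_le_left with h' | h'
    · exfalso
      have : z ∈ L ⊓ centralizer (M : Set G) := ⟨hz, mem_centralizer_iff.2 hzc⟩
      rw [h'] at this
      exact hz1 this
    · rw [le_centralizer_iff, ← h']
      exact inf_le_right

theorem fit_ZC {r : ℕ} (hr : r.Prime) : Fit (ZC r) where
  fin := fun G _ h => ⟨h.1, h.2.1⟩
  iso := by
    rintro G H _ _ ⟨e⟩ ⟨h1, h2, h⟩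
    refine ⟨Finite.of_equiv _ e.toEquiv,
      Group.isSolvable_of_surjective (f := e.toMonoidHom) e.surjective, fun P hP hp hne => ?_⟩
    obtain ⟨z, hz, hz1, hzc⟩ := h (P.comap e.toMonoidHom) inferInstance
      (fun x hx hx1 => e.injective (by
        rw [map_one]
        exact hp _ hx (by
          show (e x) ^ r = 1
          rw [← map_pow, hx1, map_one])))
      (by
        intro h0
        apply hne
        rw [eq_bot_iff]
        intro y hy
        have : e.symm y ∈ P.comap e.toMonoidHom := by simpa using hy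
        rw [h0, mem_bot] at this
        rw [mem_bot]
        simpa using this)
    refine ⟨e z, hz, fun h0 => hz1 (e.injective (by rw [h0, map_one])), fun g => ?_⟩
    have := congrArg e (hzc (e.symm g))
    simpa using this
  nor := by
    classical
    intro G _ N hN h
    have hfin := h.1
    have hs := h.2.1
    refine ⟨inferInstance, inferInstance, fun P hP hp hne => ?_⟩
    by_contra hcon
    obtain ⟨L, hL1, hL2, hL3, hL4⟩ := exists_min hP hne
    -- the family of minimal normal r'-subgroups of N meeting the centre trivially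
    let F : Set (Subgroup ↥N) := {M | M.Normal ∧ Rp r M ∧ M ⊓ center ↥N = ⊥ ∧
      ∀ L' : Subgroup ↥N, L'.Normal → L' ≤ M → L' = ⊥ ∨ L' = M}
    have hLF : L ∈ F := by
      refine ⟨hL2, hp.mono hL1, ?_, hL4⟩
      rw [eq_bot_iff]
      intro z hz
      by_contra hz1
      exact hcon ⟨z, hL1 hz.1, hz1, mem_center_iff.1 hz.2⟩
    have key : ∀ s : Finset (Subgroup ↥N), (∀ M ∈ s, M ∈ F) →
        (s.sup id).Normal ∧ Rp r (s.sup id) ∧ s.sup id ⊓ center ↥N = ⊥ := by
      intro s
      induction s using Finset.induction_on with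
      | empty =>
        intro _
        refine ⟨by simp, ?_, by simp⟩
        intro x hx _
        simpa using hx
      | insert M s _ ih =>
        intro hs
        obtain ⟨u1, u2, u3⟩ := ih fun M' hM' => hs M' (Finset.mem_insert_of_mem hM')
        obtain ⟨m1, m2, m3, m4⟩ := hs M (Finset.mem_insert_self _ _)
        rw [Finset.sup_insert]
        set U := s.sup id
        refine ⟨show (M ⊔ U).Normal from inferInstance, Rp.sup hr m2 u2, ?_⟩
        rcases m4 (M ⊓ U) inferInstance inf_le_left with h0 | h0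
        · rw [eq_bot_iff]
          rintro z ⟨hz, hzc⟩
          obtain ⟨m, hm, u, hu, rfl⟩ := mem_sup_of_normal_right.1 hz
          have hc : ∀ g : ↥N, g * m * g⁻¹ = m ∧ g * u * g⁻¹ = u := by
            intro g
            have e1 : (g * m * g⁻¹) * (g * u * g⁻¹) = m * u := by
              have := mem_center_iff.1 hzc g
              calc (g * m * g⁻¹) * (g * u * g⁻¹) = g * (m * u) * g⁻¹ := by group
                _ = m * u := by rw [this]; group
            have e2 : m⁻¹ * (g * m * g⁻¹) = u * (g * u * g⁻¹)⁻¹ := by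
              rw [eq_mul_inv_iff_mul_eq, mul_assoc, e1]; group
            have e3 : m⁻¹ * (g * m * g⁻¹) ∈ M ⊓ U :=
              mem_inf.2 ⟨M.mul_mem (M.inv_mem hm) (m1.conj_mem m hm g),
                e2 ▸ U.mul_mem hu (U.inv_mem (u1.conj_mem u hu g))⟩
            rw [h0, mem_bot] at e3
            have e4 : g * m * g⁻¹ = m := (inv_mul_eq_one.1 e3).symm
            rw [e4] at e1
            exact ⟨e4, mul_left_cancel e1⟩
          have hm1 : m ∈ M ⊓ center ↥N :=
            ⟨hm, mem_center_iff.2 fun g => mul_inv_eq_iff_eq_mul.1 (hc g).1⟩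
          have hu1 : u ∈ U ⊓ center ↥N :=
            ⟨hu, mem_center_iff.2 fun g => mul_inv_eq_iff_eq_mul.1 (hc g).2⟩
          rw [m3, mem_bot] at hm1
          rw [u3, mem_bot] at hu1
          rw [hm1, hu1, mul_one]
          exact one_mem _
        · have : M ≤ U := h0 ▸ inf_le_right
          simp only [id]
          rw [sup_eq_right.2 this]; exact u3
    have hFfin : F.Finite := Set.toFinite _
    obtain ⟨w1, w2, w3⟩ := key hFfin.toFinset (fun M hM => hFfin.mem_toFinset.1 hM)
    set W := hFfin.toFinset.sup id with hW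
    have hle : ∀ M ∈ F, M ≤ W := fun M hM =>
      Finset.le_sup (f := id) (hFfin.mem_toFinset.2 hM)
    have hch : W.Characteristic := by
      rw [characteristic_iff_map_le]
      intro e
      rw [map_le_iff_le_comap, hW, Finset.sup_le_iff]
      intro M hM
      obtain ⟨m1, m2, m3, m4⟩ := hFfin.mem_toFinset.1 hM
      rw [id, ← map_le_iff_le_comap]
      apply hle
      refine ⟨m1.map _ e.surjective, ?_, ?_, ?_⟩
      · rintro _ ⟨x, hx, rfl⟩ h1
        have : x ^ r = 1 := e.injective (by rw [map_pow, map_one]; exact h1)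
        rw [m2 x hx this, map_one]
      · rw [eq_bot_iff]
        rintro _ ⟨⟨x, hx, rfl⟩, hc⟩
        have : x ∈ M ⊓ center ↥N := ⟨hx, mem_center_iff.2 fun g => e.injective (by
          rw [map_mul, map_mul]; exact mem_center_iff.1 hc (e g))⟩
        rw [m3, mem_bot] at this
        rw [this, map_one]; exact one_mem _
      · intro L' h1 h2
        have e1 : L' = (L'.comap e.toMonoidHom).map e.toMonoidHom :=
          (map_comap_eq_self_of_surjective e.surjective L').symm
        rcases m4 (L'.comap e.toMonoidHom) inferInstance (by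
          intro x hx
          obtain ⟨y, hy, hxy⟩ := h2 hx
          rw [← e.injective hxy]; exact hy) with h3 | h3
        · left; rw [e1, h3, Subgroup.map_bot]
        · right; rw [e1, h3]
    have hn : (W.map N.subtype).Normal := ConjAct.normal_of_characteristic_of_normal
    obtain ⟨z, ⟨z', hz', rfl⟩, hz1, hzc⟩ := h.2.2 (W.map N.subtype) hn
      (by
        rintro _ ⟨x, hx, rfl⟩ h
        have := w2 x hx (Subtype.ext h)
        rw [this]; rfl)
      (by
        intro h
        have h1 := (map_eq_bot_iff_of_injective W N.subtype_injective).1 h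
        exact hL3 (eq_bot_iff.2 (h1 ▸ hle L hLF)))
    have : z' ∈ W ⊓ center ↥N := ⟨hz', mem_center_iff.2 fun g => Subtype.ext (hzc g)⟩
    rw [w3, mem_bot] at this
    exact hz1 (by rw [this]; rfl)
  sup := by
    intro G _ _ hs M N hM hN h1 h2
    have key : ∀ (G : Type) [Group G] [Finite G], Group.IsSolvable G → ∀ M N : Subgroup G,
        M.Normal → N.Normal → ZC r ↥M → ZC r ↥N → M ⊔ N = ⊤ → ZC r G := by
      intro G _ _ hs M N hM hN h1 h2 htop
      refine ⟨inferInstance, hs, fun P hP hp hne => ?_⟩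
      obtain ⟨L, hL1, hL2, hL3, hL4⟩ := exists_min hP hne
      have c1 := cent_min hL2 hM hL4 (hp.mono hL1) h1
      have c2 := cent_min hL2 hN hL4 (hp.mono hL1) h2
      have c3 : (⊤ : Subgroup G) ≤ centralizer (L : Set G) := htop ▸ sup_le c1 c2
      obtain ⟨z, hz, hz1⟩ := (bot_or_exists_ne_one L).resolve_left hL3
      exact ⟨z, hL1 hz, hz1, fun g => (mem_centralizer_iff.1 (c3 (mem_top g)) z hz).symm⟩
    have iso : ∀ K : Subgroup G, K ≤ M ⊔ N → ZC r ↥K → ZC r ↥(K.subgroupOf (M ⊔ N)) := by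
      intro K hK h
      refine ZC.of_sub inferInstance fun P hP hn hp hne => ?_
      obtain ⟨z, ⟨z', hz', rfl⟩, hz1, hzc⟩ := h.sub (P := P.map (M ⊔ N).subtype)
        (by rintro _ ⟨x, hx, rfl⟩; exact hP hx)
        ⟨by
          rintro ⟨x, hxK⟩ ⟨y, hy, hxy⟩ ⟨g, hg⟩
          refine ⟨_, hn ⟨g, hK hg⟩ hg y hy, ?_⟩
          simp only [coe_subtype] at hxy
          simp [hxy]⟩
        (by
          rintro _ ⟨x, hx, rfl⟩ h
          have := hp x hx (Subtype.ext h)
          rw [this]; rfl)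
        (fun h => hne ((map_eq_bot_iff_of_injective P (M ⊔ N).subtype_injective).1 h))
      exact ⟨z', hz', fun h => hz1 (by rw [h]; rfl), fun g hg => Subtype.ext (hzc g hg)⟩
    refine key ↥(M ⊔ N) inferInstance (M.subgroupOf _) (N.subgroupOf _) inferInstance
      inferInstance (iso M le_sup_left h1) (iso N le_sup_right h2) ?_
    rw [← subgroupOf_sup le_sup_left le_sup_right, subgroupOf_self]
  triv := by
    intro G _ _
    exact ⟨inferInstance, inferInstance, fun P _ _ h => absurd (Subsingleton.elim _ _) h⟩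
  proj := by
    intro G H _ _ _ _ h1 h2 K hK h
    refine ZC.of_sub h1 fun P hP hn hp hne => ?_
    by_cases hc : ∀ z ∈ P, ∀ g ∈ K.map (MonoidHom.fst G H), g * z = z * g
    · obtain ⟨z, hz, hz1⟩ := (bot_or_exists_ne_one P).resolve_left hne
      exact ⟨z, hz, hz1, hc z hz⟩
    simp only [not_forall] at hc
    obtain ⟨x, hx, g, hg, hxg⟩ := hc
    obtain ⟨z, hz, hz1, hzc⟩ := h.sub (P := K ⊓ P.prod ⊥) inf_le_left
      ⟨by
        rintro ⟨⟨a, b⟩, hab⟩ ⟨-, ha, hb⟩ ⟨⟨c, d⟩, hcd⟩
        refine ⟨K.mul_mem (K.mul_mem hcd hab) (K.inv_mem hcd), hn c ⟨_, hcd, rfl⟩ a ha, ?_⟩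
        have hb' : b = 1 := hb
        subst hb'
        simp⟩
      (by
        rintro ⟨a, b⟩ ⟨-, ha, hb⟩ h
        have hb' : b = 1 := hb
        rw [Prod.pow_mk, Prod.mk_eq_one] at h
        rw [hp a ha h.1, hb']; rfl)
      (by
        intro h0
        obtain ⟨⟨g', y⟩, hgy, rfl⟩ := hg
        have k1 : ((g', y) : G × H) * ((x, 1) * (g', y)⁻¹ * (x, 1)⁻¹) ∈ K :=
          mul_mem hgy (hK.conj_mem _ (inv_mem hgy) _)
        have k2 : ((g', y) : G × H) * ((x, 1) * (g', y)⁻¹ * (x, 1)⁻¹) ∈ K ⊓ P.prod ⊥ := by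
          refine ⟨k1, ?_, ?_⟩
          · have := mul_mem (hn g' ⟨_, hgy, rfl⟩ x hx) (inv_mem hx)
            simpa [mul_assoc] using this
          · simp
        rw [h0, mem_bot] at k2
        have k3 := congrArg Prod.fst k2
        simp only [Prod.fst_mul, Prod.fst_inv, Prod.fst_one] at k3
        apply hxg
        show g' * x = x * g'
        calc g' * x = g' * (x * g'⁻¹ * x⁻¹) * (x * g') := by group
          _ = x * g' := by rw [k3, one_mul])
    obtain ⟨a, b⟩ := z
    obtain ⟨-, ha, hb⟩ := hz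
    have hb' : b = 1 := hb
    subst hb'
    refine ⟨a, ha, fun h => hz1 (by rw [h]; rfl), ?_⟩
    rintro _ ⟨k, hk, rfl⟩
    exact congrArg Prod.fst (hzc k hk)

end Pool.Agent.H540Z.Lock
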